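import Pool.Agent.Y133.Half.HalfDefs
import Pool.Agent.Y133.Half.DDefs
import Pool.Agent.Y129.Defs
import Pool.Agent.H914R2.CorrDefs
import Pool.Agent.H281R3.HT.Defs

/-!
# Global sections which are algebraic at given points: definitions

`f : 𝒳 → S` is a smooth projective morphism, `S` a smooth connected complex variety, `k` the field of
the rational functions on `S` and `X` the generic fibre of `f`. The fibre power with the number `n` is
the fibre product over `S` of `n + 1` copies of `𝒳`.
-/

set_option autoImplicit false

open CategoryTheory AlgebraicGeometry

universe u v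

namespace Pool.Agent.K3h96.IX

section Lin

variable {K V V' : Type*} [Field K] [AddCommGroup V] [Module K V] [AddCommGroup V'] [Module K V']

/-- The space of the vectors fixed by all operators `g γ`. -/
def fixed {Γ : Type} (g : Γ → V →ₗ[K] V) : Submodule K V :=
  ⨅ γ, LinearMap.eqLocus (g γ) LinearMap.id

/-- The vectors which belong to `A b` for all `b` in `T`. -/
def common {B : Type} (A : B → Submodule K V) (T : Set B) : Submodule K V :=
  ⨅ b ∈ T, A b

/-- The operators in `C` commute with `g` and `g'`. -/
def Commute (C : Submodule K (V →ₗ[K] V')) (g : V →ₗ[K] V) (g' : V' →ₗ[K] V') : Prop :=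
  ∀ f ∈ C, ∀ a, f (g a) = g' (f a)

/-- The operators in `C` map `A` to `A'`. -/
def Preserve (C : Submodule K (V →ₗ[K] V')) (A : Submodule K V) (A' : Submodule K V') : Prop :=
  ∀ f ∈ C, ∀ a ∈ A, f a ∈ A'

/-- `P` is idempotent. -/
def Idem (P : V →ₗ[K] V) : Prop := ∀ a, P (P a) = P a

end Lin

section Abs

/-- The cohomology `H n` (by the Chern character, the topological K-theory) of the fibre powers, with
coefficients in `K` (in the intended use `K = ℚ`), the space `cyc n` of the linear combinations of the
classes of algebraic cycles over `k` on the generic fibre power, and the space `cor m n` of the linear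
combinations of the operators `H m → H n` given by algebraic cycles over `k` on the product of the
generic fibre powers (correspondences). -/
structure Coh (K : Type v) [Field K] where
  H : ℕ → Type v
  [grp : ∀ n, AddCommGroup (H n)]
  [mod : ∀ n, Module K (H n)]
  cyc : ∀ n, Submodule K (H n)
  cor : ∀ m n, Submodule K (H m →ₗ[K] H n)

attribute [instance] Coh.grp Coh.mod

variable {K : Type v} [Field K]

/-- The local systems of the cohomology of the fibre powers, and the algebraic classes on the fibres.

* `Γ` is the fundamental group of `S`, and `mon n γ` is the action of `γ` on the cohomology of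
  the fibre power; the global sections of the local system over `S` are the classes fixed by all
  `mon n γ`.
* `B` is the universal covering of `S`. For `b` in `B`, the cohomology of the power of the fibre `X_b`
  is identified with `H n` by parallel transport, and `alg n b` is the space of the classes which are
  algebraic at `b` (for a global section this depends only on the image of `b` in `S`).

The classes of cycles over `k` are global sections and algebraic at all points, and correspondences
over `k` commute with the monodromy and preserve algebraic classes, since the cycles extend to `S`.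
`spread` is well known: a global section which is algebraic at all points is a linear combination of
classes of cycles over `k` (a cycle at a very general point extends to a finite covering of an open
subset of `S`; take the direct image). -/
structure Family (X : Coh K) where
  Γ : Type
  mon : ∀ n, Γ → X.H n →ₗ[K] X.H n
  B : Type
  alg : ∀ n, B → Submodule K (X.H n)
  mon_cyc : ∀ n, X.cyc n ≤ fixed (mon n)
  alg_cyc : ∀ n b, X.cyc n ≤ alg n b
  mon_cor : ∀ m n γ, Commute (X.cor m n) (mon m γ) (mon n γ)
  alg_cor : ∀ m n b, Preserve (X.cor m n) (alg m b) (alg n b)
  spread : ∀ n, fixed (mon n) ⊓ common (alg n) Set.univ ≤ X.cyc n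

variable {X : Coh K}

/-- The space of the global sections for the fibre power with the number `n` which are algebraic at
the points of `T`. -/
def Family.secs (F : Family X) (T : Set F.B) (n : ℕ) : Submodule K (X.H n) :=
  fixed (F.mon n) ⊓ common (F.alg n) T

/-- The dimension of the space of the global sections which are algebraic at the points of `T`. -/
noncomputable def Family.dim (F : Family X) (T : Set F.B) (n : ℕ) : ℕ :=
  Module.finrank K (F.secs T n)

/-- An `S`-linear admissible subcategory `𝒞` of `D_perf` of a fibre power, given by the operator `P` in
cohomology which is induced by the projection functor onto `𝒞`: it is idempotent and is given by an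
algebraic correspondence over `k`, since the projection functor has a kernel. The local system
`K^top(𝒞 / S) ⊗ ℚ` is the image of `P`. -/
structure AdmCat (X : Coh K) (n : ℕ) where
  P : X.H n →ₗ[K] X.H n
  idem : Idem P
  kernel : P ∈ X.cor n n

variable {n : ℕ}

/-- `a` is a global section of `K^top(𝒞 / S) ⊗ ℚ`. -/
def AdmCat.IsSection (C : AdmCat X n) (F : Family X) (a : X.H n) : Prop :=
  C.P a = a ∧ a ∈ fixed (F.mon n)

/-- The class `a` in `K^top(𝒞_b) ⊗ ℚ` is algebraic: it is in the image of `K_0(𝒞_b) ⊗ ℚ`, which is the
image under `P` of the space of the algebraic classes. -/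
def AdmCat.IsAlg (C : AdmCat X n) (F : Family X) (b : F.B) (a : X.H n) : Prop :=
  ∃ z ∈ F.alg n b, C.P z = a

/-- Every global section of `K^top(𝒞 / S) ⊗ ℚ` which is algebraic at the points of `T` is algebraic
at all points. For sets `T` with one point this is Q1 for `𝒞` and this point. -/
def AdmCat.QOne (C : AdmCat X n) (F : Family X) (T : Set F.B) : Prop :=
  ∀ a, C.IsSection F a → (∀ b ∈ T, C.IsAlg F b a) → ∀ b, C.IsAlg F b a

/-- `QOne` for all `S`-linear admissible subcategories of `D_perf` of all fibre powers of `𝒳`. -/
def Family.QOneAll (F : Family X) (T : Set F.B) : Prop :=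
  ∀ (n : ℕ) (C : AdmCat X n), C.QOne F T

/-- There are `r` points, where `r + 1 ≤ N`, such that each global section (of any admissible
subcategory of any fibre power) which is algebraic at the points of `T` and at these `r` points is
algebraic at all points. -/
def Family.FewPoints (F : Family X) (T : Set F.B) (N : ℕ∞) : Prop :=
  ∃ (r : ℕ) (b : Fin r → F.B), (r : ℕ∞) + 1 ≤ N ∧ F.QOneAll (T ∪ Set.range b)

/-- There are `r` global sections on fibre powers which are algebraic at the points of `T`, where
`r + 1 ≤ N`, such that all global sections on all fibre powers which are algebraic at the points of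
`T` are algebraic at the points of a set `T'` if these `r` sections are. -/
def Family.FewSections (F : Family X) (T : Set F.B) (N : ℕ∞) : Prop :=
  ∃ (r : ℕ) (c : Fin r → Σ m, X.H m), (r : ℕ∞) + 1 ≤ N ∧
    (∀ i, (c i).2 ∈ F.secs T (c i).1) ∧
    ∀ T', (∀ i, (c i).2 ∈ F.secs T' (c i).1) → ∀ n, F.secs T n ≤ F.secs T' n

end Abs

open Pool.Agent.H914 Pool.Agent.H914.VarClass Pool.Agent.H914.VarClass.Obj
  Pool.Agent.H914.WeilCohomology Pool.Agent.H281R3.HT
open Pool.Agent.Y129 (pw)
open Pool.Agent.Y133.Half (algSet)

variable {k : Type u} [Field k] {𝒱 : VarClass k} {ops : CycleOps 𝒱}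

/-- The cohomology of the product of `n + 1` copies of `X`. -/
def HPow (W : WeilCohomology.{u, v} ops) (X : 𝒱.Obj) (n : ℕ) : Type v := W.H (pw X n)

noncomputable instance (W : WeilCohomology.{u, v} ops) (X : 𝒱.Obj) (n : ℕ) :
    AddCommGroup (HPow W X n) :=
  (W.ring (pw X n)).toAddCommGroup

noncomputable instance (W : WeilCohomology.{u, v} ops) (X : 𝒱.Obj) (n : ℕ) :
    Module W.K (HPow W X n) :=
  (W.algebra (pw X n)).toModule

/-- The space spanned by the classes of algebraic cycles. -/
noncomputable def cycPow (W : WeilCohomology.{u, v} ops) (X : 𝒱.Obj) (n : ℕ) : Submodule W.K (HPow W X n) :=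
  Submodule.span W.K (algSet W (pw X n))

/-- The operator `x ↦ pr₂_* (c · pr₁^* x)` given by a class `c` on the product. -/
noncomputable def opPow (W : WeilCohomology.{u, v} ops) (X : 𝒱.Obj) (m n : ℕ)
    (c : W.H ((pw X m).prod (pw X n))) : HPow W X m →ₗ[W.K] HPow W X n :=
  W.corr c

/-- The space spanned by the operators given by algebraic cycles on the product. -/
noncomputable def corPow (W : WeilCohomology.{u, v} ops) (X : 𝒱.Obj) (m n : ℕ) :
    Submodule W.K (HPow W X m →ₗ[W.K] HPow W X n) :=
  Submodule.span W.K (opPow W X m n '' algSet W ((pw X m).prod (pw X n)))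

/-- The cohomology of the powers of `X` for the Weil cohomology theory `W`. The intended use: `X` is
the generic fibre of `f`, and `W` is the Betti cohomology, with rational coefficients, of the
varieties over `k` (by a very general point of `S`). -/
noncomputable def powers (W : WeilCohomology.{u, v} ops) (X : 𝒱.Obj) : Coh.{v} W.K where
  H := HPow W X
  cyc := cycPow W X
  cor := corPow W X

end Pool.Agent.K3h96.IX
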