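import Pool.Agent.K3h96.IX.Defs
import Pool.Agent.Y133.Half.Index2

/-!
# The index of a set of points
-/

set_option autoImplicit false

open CategoryTheory AlgebraicGeometry Filter Topology

open scoped ENNReal

universe u v

namespace Pool.Agent.K3h96.IX

open Module
open Pool.Agent.H914 Pool.Agent.H914.VarClass Pool.Agent.H914.VarClass.Obj
  Pool.Agent.H914.WeilCohomology Pool.Agent.H281R3.HT
open Pool.Agent.Y129 (pw CC StableSystem IsIndex numRank exists_corr_eq algSys)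
open Pool.Agent.Y133.Half (cycRank AtMostHalf)

variable {k : Type u} [Field k] {𝒱 : VarClass k} {ops : CycleOps 𝒱}
  {W : WeilCohomology.{u, v} ops} {X : 𝒱.Obj}

/-- The space of all sections, as a subspace of the cohomology. -/
noncomputable def sec (F : Family (powers W X)) (T : Set F.B) (n : ℕ) : Submodule W.K (W.H (pw X n)) :=
  F.secs T n

lemma span_algSet (Z : 𝒱.Obj) :
    Submodule.span W.K (Pool.Agent.Y133.Half.algSet W Z) = algSpan W Z := by
  apply le_antisymm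
  · rw [Submodule.span_le]
    rintro _ ⟨j, z, hz, rfl⟩
    exact Submodule.subset_span (Set.mem_iUnion.2 ⟨j, z, hz, rfl⟩)
  · rw [algSpan, Submodule.span_le]
    intro x hx
    obtain ⟨j, z, hz, rfl⟩ := Set.mem_iUnion.1 hx
    exact Submodule.subset_span ⟨j, z, hz, rfl⟩

lemma mem_cyc {n : ℕ} {c : W.H (pw X n)} : c ∈ (powers W X).cyc n ↔ c ∈ algSpan W (pw X n) := by
  have h : c ∈ (powers W X).cyc n ↔
    c ∈ Submodule.span W.K (Pool.Agent.Y133.Half.algSet W (pw X n)) := Iff.rfl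
  rw [h, span_algSet]

lemma mem_cor {m n : ℕ} {f : W.H (pw X m) →ₗ[W.K] W.H (pw X n)} :
    f ∈ (powers W X).cor m n ↔ f ∈ CC W (pw X m) (pw X n) := by
  have h0 : f ∈ (powers W X).cor m n ↔ f ∈ Submodule.span W.K
    ((fun c => W.corr c) '' Pool.Agent.Y133.Half.algSet W ((pw X m).prod (pw X n))) := Iff.rfl
  rw [h0]
  constructor
  · intro h
    refine (Submodule.span_le (p := CC W (pw X m) (pw X n))).2 ?_ h
    rintro _ ⟨_, ⟨j, z, hz, rfl⟩, rfl⟩
    exact Pool.Agent.Y129.map_corr_mem (Submodule.subset_span (Set.mem_iUnion.2 ⟨j, z, hz, rfl⟩))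
  · intro h
    obtain ⟨c, hc, rfl⟩ := exists_corr_eq h
    have key : ∀ c ∈ algSpan W ((pw X m).prod (pw X n)), W.corr c ∈ Submodule.span W.K
        ((fun c => W.corr c) '' Pool.Agent.Y133.Half.algSet W ((pw X m).prod (pw X n))) := by
      intro c hc
      induction hc using Submodule.span_induction with
      | mem x hx =>
        obtain ⟨j, z, hz, rfl⟩ := Set.mem_iUnion.1 hx
        exact Submodule.subset_span ⟨_, ⟨j, z, hz, rfl⟩, rfl⟩
      | zero => rw [corr_zero]; exact Submodule.zero_mem _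
      | add x y _ _ hx hy => rw [corr_add]; exact Submodule.add_mem _ hx hy
      | smul r x _ hx => rw [corr_smul]; exact Submodule.smul_mem _ _ hx
    exact key c hc

lemma mem_fixed {K V : Type*} [Field K] [AddCommGroup V] [Module K V] {Γ : Type}
    {g : Γ → V →ₗ[K] V} {a : V} : a ∈ fixed g ↔ ∀ γ, g γ a = a := by
  rw [fixed, Submodule.mem_iInf]
  exact forall_congr' fun γ => LinearMap.mem_eqLocus

lemma mem_common {K V : Type*} [Field K] [AddCommGroup V] [Module K V] {B : Type}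
    {A : B → Submodule K V} {T : Set B} {a : V} : a ∈ common A T ↔ ∀ b ∈ T, a ∈ A b := by
  rw [common]
  simp only [Submodule.mem_iInf]

variable (F : Family (powers W X))

lemma mem_sec {T : Set F.B} {n : ℕ} {a : W.H (pw X n)} :
    a ∈ sec F T n ↔ (∀ γ, F.mon n γ a = a) ∧ ∀ b ∈ T, a ∈ F.alg n b := by
  have h : a ∈ sec F T n ↔ a ∈ fixed (F.mon n) ∧ a ∈ common (F.alg n) T := Iff.rfl
  have h1 : a ∈ fixed (F.mon n) ↔ ∀ γ, F.mon n γ a = a :=
    mem_fixed (V := (powers W X).H n) (g := F.mon n) (a := a)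
  have h2 : a ∈ common (F.alg n) T ↔ ∀ b ∈ T, a ∈ F.alg n b :=
    mem_common (V := (powers W X).H n) (A := F.alg n) (a := a)
  exact h.trans (and_congr h1 h2)

lemma mon_cyc {n : ℕ} {c : W.H (pw X n)} (hc : c ∈ algSpan W (pw X n)) (γ : F.Γ) :
    F.mon n γ c = c := by
  exact mem_fixed.1 (F.mon_cyc n (mem_cyc.2 hc)) γ

lemma alg_cyc {n : ℕ} {c : W.H (pw X n)} (hc : c ∈ algSpan W (pw X n)) (b : F.B) :
    c ∈ F.alg n b := F.alg_cyc n b (mem_cyc.2 hc)

lemma spread {n : ℕ} {a : W.H (pw X n)} (h1 : ∀ γ, F.mon n γ a = a)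
    (h2 : ∀ b, a ∈ F.alg n b) : a ∈ algSpan W (pw X n) := by
  apply mem_cyc.1
  exact F.spread n ⟨mem_fixed.2 h1, mem_common.2 fun b _ => h2 b⟩

lemma algSpan_le (T : Set F.B) (n : ℕ) : algSpan W (pw X n) ≤ sec F T n := fun _ hc =>
  (mem_sec F).2 ⟨fun γ => mon_cyc F hc γ, fun b _ => alg_cyc F hc b⟩

lemma sec_univ (n : ℕ) : sec F Set.univ n = algSpan W (pw X n) := by
  apply le_antisymm _ (algSpan_le F _ n)
  intro a ha
  rw [mem_sec] at ha
  exact spread F ha.1 fun b => ha.2 b (Set.mem_univ b)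

lemma sec_mono {T T' : Set F.B} (h : T ⊆ T') (n : ℕ) : sec F T' n ≤ sec F T n := by
  intro a ha
  rw [mem_sec] at ha ⊢
  exact ⟨ha.1, fun b hb => ha.2 b (h hb)⟩

lemma stable (T : Set F.B) : StableSystem W X (sec F T) := by
  intro m n f hf a ha
  have hf' := mem_cor.2 hf
  rw [mem_sec] at ha ⊢
  refine ⟨fun γ => ?_, fun b hb => F.alg_cor m n b f hf' a (ha.2 b hb)⟩
  have h1 := F.mon_cor m n γ f hf' a
  rw [ha.1 γ] at h1
  exact h1.symm

/-- The whole category. -/
noncomputable def whole (W : WeilCohomology.{u, v} ops) (X : 𝒱.Obj) (n : ℕ) :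
    AdmCat (powers W X) n where
  P := LinearMap.id
  idem _ := rfl
  kernel := by
    apply mem_cor.2
    have h1 := Pool.Agent.Y129.map_corr_mem (W := W) (X := pw X n) (Y := pw X n)
      (Pool.Agent.Y129.push_algSpan (diag (pw X n)) (Pool.Agent.Y129.one_algSpan (W := W) _))
    rw [Pool.Agent.Y129.Half.Sys.corr_diag_one] at h1
    exact h1

/-- Q1 for all admissible subcategories of all powers. -/
lemma qOneAll_iff (T : Set F.B) :
    F.QOneAll T ↔ ∀ n, sec F T n = algSpan W (pw X n) := by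
  constructor
  · intro h n
    apply le_antisymm _ (algSpan_le F _ n)
    intro a ha
    rw [mem_sec] at ha
    refine spread F ha.1 fun b => ?_
    obtain ⟨z, hz, h1⟩ := h n (whole W X n) a ⟨rfl, mem_fixed.2 ha.1⟩
      (fun b hb => ⟨a, ha.2 b hb, rfl⟩) b
    have h2 : z = a := h1
    rwa [← h2]
  · intro h n C a ha hT b
    have h1 : (a : W.H (pw X n)) ∈ sec F T n := by
      refine (mem_sec F).2 ⟨mem_fixed.1 ha.2, fun b hb => ?_⟩
      obtain ⟨z, hz, h1⟩ := hT b hb
      rw [← h1]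
      exact F.alg_cor n n b C.P C.kernel z hz
    rw [h n] at h1
    exact ⟨a, alg_cyc F h1 b, ha.1⟩

lemma isIndex_iff {G : ∀ n, Submodule W.K (W.H (pw X n))} {N : ℕ∞} : IsIndex W X G N ↔
    Tendsto (fun n => (finrank W.K (G n) : ℝ≥0∞) / cycRank ops (pw X n)) atTop
      (𝓝 (N : ℝ≥0∞)) := by
  rw [IsIndex]
  simp only [Pool.Agent.Y129.numRank_eq_sum]
  rfl

/-- A ratio with a limit at least two. -/
lemma atMostHalf_of {a t : ℕ → ℕ} {N : ℕ∞} (hN : 2 ≤ N)
    (h : Tendsto (fun n => (t n : ℝ≥0∞) / a n) atTop (𝓝 (N : ℝ≥0∞))) : AtMostHalf a t := by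
  intro ε hε
  have hc : (0 : ℝ) < 1 / 2 + ε := by positivity
  have h1 : ENNReal.ofReal (1 / 2 + ε)⁻¹ < (N : ℝ≥0∞) := by
    have h2 : ((2 : ℕ∞) : ℝ≥0∞) ≤ (N : ℝ≥0∞) := by exact_mod_cast hN
    refine lt_of_lt_of_le ?_ h2
    have h3 : (((2 : ℕ∞) : ℝ≥0∞)) = ENNReal.ofReal 2 := by
      rw [ENNReal.ofReal_ofNat]; rfl
    rw [h3]
    apply (ENNReal.ofReal_lt_ofReal_iff (by norm_num)).2
    rw [inv_lt_comm₀ hc (by norm_num)]
    linarith
  obtain ⟨n₀, hn₀⟩ := eventually_atTop.1 (h.eventually (lt_mem_nhds h1))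
  refine ⟨n₀, fun n hn => ?_⟩
  have h2 := hn₀ n hn
  rcases Nat.eq_zero_or_pos (a n) with h3 | h3
  · rw [h3, Nat.cast_zero]; positivity
  have h4 : (t n : ℝ≥0∞) / a n = ENNReal.ofReal ((t n : ℝ) / a n) :=
    (Pool.Agent.Y129.ratio_ofReal h3).symm
  rw [h4, ENNReal.ofReal_lt_ofReal_iff_of_nonneg (by positivity)] at h2
  have h5 : (0 : ℝ) < a n := by exact_mod_cast h3
  rw [lt_div_iff₀ h5, inv_mul_lt_iff₀ hc] at h2
  exact h2.le

variable {F}

/-- The points which suffice for a test. -/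
lemma test_points [Nontrivial (W.H X)] {N : Set F.B → ℕ∞} (h1 : ∀ T, 1 ≤ N T)
    (h2 : ∀ T, IsIndex W X (sec F T) (N T)) (k : ℕ) : ∀ T, N T = k →
    ∃ (r : ℕ) (b : Fin r → F.B), r + 1 ≤ k ∧
      ∀ n, sec F (T ∪ Set.range b) n = algSpan W (pw X n) := by
  induction k using Nat.strong_induction_on with
  | _ k ih =>
    intro T hT
    by_cases hA : ∀ n, sec F T n = algSpan W (pw X n)
    · refine ⟨0, Fin.elim0, ?_, fun n => ?_⟩
      · have h3 := h1 T
        rw [hT] at h3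
        exact_mod_cast h3
      · have h3 : Set.range (Fin.elim0 : Fin 0 → F.B) = ∅ := Set.range_eq_empty _
        rw [h3, Set.union_empty, hA n]
    · push Not at hA
      obtain ⟨n, hn⟩ := hA
      obtain ⟨a, ha, ha'⟩ : ∃ a ∈ sec F T n, a ∉ algSpan W (pw X n) := by
        by_contra hcon
        push Not at hcon
        exact hn (le_antisymm hcon (algSpan_le F _ n))
      rw [mem_sec] at ha
      obtain ⟨b₀, hb₀⟩ : ∃ b, a ∉ F.alg n b := by
        by_contra hcon
        push Not at hcon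
        exact ha' (spread F ha.1 hcon)
      have hsub : T ⊆ T ∪ {b₀} := Set.subset_union_left
      have hne : sec F (T ∪ {b₀}) n ≠ sec F T n := by
        intro h
        have ha2 := (mem_sec F).2 ha
        rw [← h] at ha2
        exact hb₀ (((mem_sec F).1 ha2).2 b₀ (Or.inr rfl))
      have hgap := Pool.Agent.Y129.gap_index (stable F _) (stable F _) (algSpan_le F _)
        (sec_mono F hsub) hne (h2 _) (h2 _)
      rw [hT] at hgap
      have hfin : N (T ∪ {b₀}) ≠ ⊤ := by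
        intro h
        rw [h, top_add] at hgap
        exact ENat.natCast_ne_top k (top_le_iff.1 hgap)
      obtain ⟨l, hl⟩ := ENat.ne_top_iff_exists.1 hfin
      rw [← hl] at hgap
      have hlk : l + 1 ≤ k := by exact_mod_cast hgap
      obtain ⟨r, b, hr, hb⟩ := ih l (by omega) _ hl.symm
      refine ⟨r + 1, Fin.cons b₀ b, by omega, fun n => ?_⟩
      have h3 : T ∪ Set.range (Fin.cons b₀ b : Fin (r + 1) → F.B) =
          T ∪ {b₀} ∪ Set.range b := by
        rw [Fin.range_cons, Set.insert_eq, Set.union_assoc]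
      rw [h3]
      exact hb n

/-- **The index of a set of points.** -/
theorem main (F : Family (powers W X)) [Nontrivial (W.H X)] : ∃ N : Set F.B → ℕ∞,
    (∀ T, 1 ≤ N T ∧ Tendsto (fun n => (F.dim T n : ℝ≥0∞) / cycRank ops (pw X n)) atTop
      (𝓝 (N T : ℝ≥0∞))) ∧
    (∀ T, N T = 1 ↔ F.QOneAll T ∧ ∀ n, HomEqNum W (pw X n)) ∧
    (∀ T T', T ⊆ T' → N T' ≤ N T ∧
      (N T ≠ ⊤ → N T' = N T → ∀ n, F.secs T n = F.secs T' n)) ∧
    (∀ T, N T ≠ ⊤ → (∀ n, HomEqNum W (pw X n)) ∧ F.FewPoints T (N T) ∧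
      F.FewSections T (N T)) ∧
    (∀ T, (∀ n, HomEqNum W (pw X n)) → ¬ F.QOneAll T →
      AtMostHalf (F.dim Set.univ) (F.dim T)) := by
  have hex : ∀ T : Set F.B, ∃ N : ℕ∞, 1 ≤ N ∧ IsIndex W X (sec F T) N ∧
      (N = 1 ↔ F.QOneAll T ∧ ∀ n, HomEqNum W (pw X n)) ∧
      (N ≠ ⊤ → ∀ n, HomEqNum W (pw X n)) := by
    intro T
    obtain ⟨N, h1, h2, -, h4, h5⟩ := Pool.Agent.Y133.Half.stable_index (stable F T)
      (algSpan_le F T)
    refine ⟨N, h1, isIndex_iff.2 h2, ?_, h5⟩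
    rw [h4, qOneAll_iff]
    exact forall_and
  choose N h1 h2 h3 h4 using hex
  have hmono : ∀ T T', T ⊆ T' → N T' ≤ N T := by
    intro T T' h
    have h5 : (N T' : ℝ≥0∞) ≤ (N T : ℝ≥0∞) := by
      refine le_of_tendsto_of_tendsto' (h2 T') (h2 T) fun n => ?_
      apply ENNReal.div_le_div_right
      exact_mod_cast Submodule.finrank_mono (sec_mono F h n)
    exact_mod_cast h5
  refine ⟨N, fun T => ⟨h1 T, isIndex_iff.1 (h2 T)⟩, h3, fun T T' h => ⟨hmono T T' h, ?_⟩,
    fun T hT => ⟨h4 T hT, ?_, ?_⟩, fun T hD hT => ?_⟩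
  · intro hT hTT n
    by_contra hne
    have hne' : sec F T' n ≠ sec F T n := fun h => hne h.symm
    have h5 := Pool.Agent.Y129.gap_index (stable F _) (stable F _) (algSpan_le F _)
      (sec_mono F h) (m := n) hne' (h2 T') (h2 T)
    rw [hTT] at h5
    obtain ⟨l, hl⟩ := ENat.ne_top_iff_exists.1 hT
    rw [← hl] at h5
    have h6 : l + 1 ≤ l := by exact_mod_cast h5
    omega
  · obtain ⟨l, hl⟩ := ENat.ne_top_iff_exists.1 hT
    obtain ⟨r, b, hr, hb⟩ := test_points h1 h2 l T hl.symm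
    refine ⟨r, b, ?_, (qOneAll_iff F _).2 hb⟩
    rw [← hl]
    exact_mod_cast hr
  · obtain ⟨r, c, hr, hc, hG⟩ := Pool.Agent.Y129.exists_generators (stable F T) (algSpan_le F T)
      (h2 T) hT (fun n => (sec F T n : Set (W.H (pw X n)))) (fun n => (Submodule.span_eq _).symm)
    refine ⟨r, c, hr, hc, fun T' hT' n => ?_⟩
    have h6 : sec F T n ≤ sec F T' n := by
      rw [hG n]
      exact Pool.Agent.Y129.genSys_le (stable F T') (algSpan_le F T') hT' n
    exact h6
  · have h5 : N T ≠ 1 := fun h => hT ((h3 T).1 h).1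
    have h6 : 2 ≤ N T := by
      have h7 : 1 < N T := lt_of_le_of_ne (h1 T) (Ne.symm h5)
      have h8 := Order.add_one_le_of_lt h7
      rwa [one_add_one_eq_two] at h8
    refine atMostHalf_of h6 ?_
    have h7 : ∀ n, F.dim Set.univ n = cycRank ops (pw X n) := by
      intro n
      have h8 : F.dim Set.univ n = finrank W.K (sec F Set.univ n) := rfl
      rw [h8, sec_univ]
      exact ((Pool.Agent.Y133.Half.homEqNum_iff' (W := W) (pw X n)).1 (hD n)).symm
    simp only [h7]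
    exact isIndex_iff.1 (h2 T)

end Pool.Agent.K3h96.IX
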